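import Pool.Agent.FR106.Spectral

/-!
# Proper fractional revival with a support eigenvalue of degree at least three

The graph `Pool.Agent.FR106.X` on `66` vertices has proper fractional revival on `{1, 0}`, and
`4 + 4 φ + 8 √2 = 6 + 2 √5 + 8 √2` lies in the eigenvalue support of the vertex `1`.
-/

namespace Pool.Agent.Results.MP_884c22_co.DegreeFourSupport

open Pool.Agent.FR106 Polynomial goldenRatio

theorem not_sq5 : ¬ IsSquare (5 : ℚ) := by norm_num

theorem not_sq10 : ¬ IsSquare (10 : ℚ) := by norm_num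

theorem rat_sq (d : ℚ) (hd : ¬ IsSquare d) (q r : ℚ) (h : q ^ 2 = d * r ^ 2) : q = 0 ∧ r = 0 := by
  by_cases hr : r = 0
  · subst hr
    constructor
    · nlinarith
    · rfl
  · exfalso
    apply hd
    refine ⟨q / r, ?_⟩
    field_simp
    linarith

theorem indep2 (x y : ℚ) (h : (x : ℝ) + y * √2 = 0) : x = 0 ∧ y = 0 := by
  by_cases hy : y = 0
  · subst hy
    refine ⟨?_, rfl⟩
    simpa using h
  · exfalso
    have hy' : (y : ℝ) ≠ 0 := by exact_mod_cast hy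
    have : √2 = ((-x / y : ℚ) : ℝ) := by
      push_cast
      field_simp
      linarith
    exact irrational_sqrt_two ⟨_, this.symm⟩

theorem indep4 (x y z w : ℚ) (h : (x : ℝ) + y * √2 + z * √5 + w * (√2 * √5) = 0) :
    x = 0 ∧ y = 0 ∧ z = 0 ∧ w = 0 := by
  have h2 : √2 * √2 = (2 : ℝ) := Real.mul_self_sqrt (by norm_num)
  have h5 : √5 * √5 = (5 : ℝ) := Real.mul_self_sqrt (by norm_num)
  have h1 : (x : ℝ) + y * √2 = -(√5 * (z + w * √2)) := by linarith
  have hsq : ((x : ℝ) + y * √2) * (x + y * √2) = 5 * ((z + w * √2) * (z + w * √2)) := by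
    rw [h1]
    linear_combination ((z : ℝ) + w * √2) ^ 2 * h5
  have h3 : ((x ^ 2 + 2 * y ^ 2 - 5 * z ^ 2 - 10 * w ^ 2 : ℚ) : ℝ) +
      ((2 * x * y - 10 * z * w : ℚ) : ℝ) * √2 = 0 := by
    push_cast
    linear_combination hsq + (-(y : ℝ) ^ 2 + 5 * w ^ 2) * h2
  obtain ⟨k1, k2⟩ := indep2 _ _ h3
  have k3 : (x ^ 2 - 2 * y ^ 2 - 5 * (z ^ 2 - 2 * w ^ 2)) *
      (x ^ 2 - 2 * y ^ 2 + 5 * (z ^ 2 - 2 * w ^ 2)) = 0 := by
    have e1 : x ^ 2 + 2 * y ^ 2 = 5 * z ^ 2 + 10 * w ^ 2 := by linarith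
    have e2 : x * y = 5 * (z * w) := by linarith
    have e3 : (x ^ 2 + 2 * y ^ 2) ^ 2 = (5 * z ^ 2 + 10 * w ^ 2) ^ 2 := by rw [e1]
    have e4 : (x * y) ^ 2 = (5 * (z * w)) ^ 2 := by rw [e2]
    linear_combination e3 - 8 * e4
  rcases mul_eq_zero.1 k3 with k | k
  · obtain ⟨a1, a2⟩ := rat_sq 5 not_sq5 x z (by linarith)
    obtain ⟨a3, a4⟩ := rat_sq 5 not_sq5 y w (by linarith)
    exact ⟨a1, a3, a2, a4⟩
  · obtain ⟨a1, a2⟩ := rat_sq 10 not_sq10 x w (by linarith)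
    obtain ⟨a3, a4⟩ := rat_sq 10 not_sq10 (2 * y) z (by linarith)
    exact ⟨a1, by linarith, a4, a2⟩

/-- The eigenvalue. -/
noncomputable def θ : ℝ := 4 + 4 * φ + 8 * √2

theorem θ_eq : θ = 6 + 2 * √5 + 8 * √2 := by
  unfold θ
  rw [phi_eq]
  ring

theorem θ_integral : IsIntegral ℚ θ := by
  rw [θ_eq]
  have h2 : IsIntegral ℚ (√2 : ℝ) := by
    apply IsIntegral.of_pow (n := 2) (by norm_num)
    rw [Real.sq_sqrt (by norm_num)]
    simpa using (isIntegral_algebraMap : IsIntegral ℚ (algebraMap ℚ ℝ 2))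
  have h5 : IsIntegral ℚ (√5 : ℝ) := by
    apply IsIntegral.of_pow (n := 2) (by norm_num)
    rw [Real.sq_sqrt (by norm_num)]
    simpa using (isIntegral_algebraMap : IsIntegral ℚ (algebraMap ℚ ℝ 5))
  have h6 : IsIntegral ℚ (6 : ℝ) := by
    simpa using (isIntegral_algebraMap : IsIntegral ℚ (algebraMap ℚ ℝ 6))
  have h8 : IsIntegral ℚ (8 : ℝ) := by
    simpa using (isIntegral_algebraMap : IsIntegral ℚ (algebraMap ℚ ℝ 8))
  have h22 : IsIntegral ℚ (2 : ℝ) := by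
    simpa using (isIntegral_algebraMap : IsIntegral ℚ (algebraMap ℚ ℝ 2))
  exact (h6.add (h22.mul h5)).add (h8.mul h2)

theorem degree : 3 ≤ (minpoly ℚ θ).natDegree := by
  by_contra hlt
  have hm := minpoly.monic θ_integral
  have h0 : aeval θ (minpoly ℚ θ) = 0 := minpoly.aeval ℚ θ
  set p := minpoly ℚ θ with hp
  have hd : p.natDegree < 3 := by omega
  rw [aeval_eq_sum_range' hd, Finset.sum_range_succ, Finset.sum_range_succ,
    Finset.sum_range_succ, Finset.sum_range_zero] at h0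
  simp only [Algebra.smul_def, pow_zero, mul_one, pow_one, zero_add, eq_ratCast] at h0
  have h2 : √2 * √2 = (2 : ℝ) := Real.mul_self_sqrt (by norm_num)
  have h5 : √5 * √5 = (5 : ℝ) := Real.mul_self_sqrt (by norm_num)
  rw [θ_eq] at h0
  have h1 : ((p.coeff 0 + 6 * p.coeff 1 + 184 * p.coeff 2 : ℚ) : ℝ) +
      ((8 * p.coeff 1 + 96 * p.coeff 2 : ℚ) : ℝ) * √2 +
      ((2 * p.coeff 1 + 24 * p.coeff 2 : ℚ) : ℝ) * √5 +
      ((32 * p.coeff 2 : ℚ) : ℝ) * (√2 * √5) = 0 := by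
    push_cast
    linear_combination h0 - 64 * (p.coeff 2 : ℝ) * h2 - 4 * (p.coeff 2 : ℝ) * h5
  obtain ⟨k1, k2, k3, k4⟩ := indep4 _ _ _ _ h1
  have c2 : p.coeff 2 = 0 := by linarith
  have c1 : p.coeff 1 = 0 := by linarith
  have c0 : p.coeff 0 = 0 := by linarith
  have hz : p = 0 := by
    ext n
    rw [coeff_zero]
    rcases n with _ | _ | _ | n
    · exact c0
    · exact c1
    · exact c2
    · exact coeff_eq_zero_of_natDegree_lt (by omega)
  exact hm.ne_zero hz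

/-- There is a graph with proper fractional revival on `{a, b}` for which the eigenvalue support
of `a` contains an eigenvalue of degree at least three over `ℚ`. -/
theorem result : ∃ (Y : SimpleGraph (Fin 66)) (_ : DecidableRel Y.Adj) (a b : Fin 66),
    a ≠ b ∧ ProperFR Y a b ∧
      ∃ μ : ℝ, E Y μ (EuclideanSpace.single a 1) ≠ 0 ∧ 3 ≤ (minpoly ℚ μ).natDegree :=
  ⟨X, inferInstance, 1, 0, by decide, proper, θ, E_phi_sqrt2_ne, degree⟩

end Pool.Agent.Results.MP_884c22_co.DegreeFourSupport
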